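import Pool.Agent.H.MP_6fdec2_co.Inner

set_option autoImplicit false
set_option linter.unusedSectionVars false
set_option linter.unusedSimpArgs false

namespace Pool.Agent.H.MP_6fdec2_co

open Finset

variable {F : Type} [Field F] [Fintype F] [DecidableEq F]

theorem two_aux {a b c d : F} (ha : a ≠ 0) (h : a * d - b * c = 0) :
    ∑ t : F, ∑ s : F, I (a * s + b * t = 0) * I (c * s + d * t = 0) = q F := by
  have : ∀ t : F, ∑ s : F, I (a * s + b * t = 0) * I (c * s + d * t = 0) = 1 := by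
    intro t
    refine Eq.trans (sum_congr rfl fun s _ => ?_) (sum_I_lin ha (b * t))
    by_cases h1 : a * s + b * t = 0
    · have : c * s + d * t = 0 := by
        apply mul_left_cancel₀ ha
        linear_combination c * h1 + t * h
      rw [I_pos this, mul_one]
    · rw [I_neg h1, zero_mul]
  simp only [this, sum_const', mul_one]

theorem two_sys (a b c d : F) :
    ∑ s : F, ∑ t : F, I (a * s + b * t = 0) * I (c * s + d * t = 0) =
      q F - (q F - 1) * I (a * d - b * c ≠ 0) +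
        (q F ^ 2 - q F) * I (a = 0 ∧ b = 0 ∧ c = 0 ∧ d = 0) := by
  by_cases h : a * d - b * c = 0
  · rw [I_neg (show ¬ a * d - b * c ≠ 0 from fun h' => h' h)]
    by_cases h0 : a = 0 ∧ b = 0 ∧ c = 0 ∧ d = 0
    · obtain ⟨rfl, rfl, rfl, rfl⟩ := h0
      simp only [zero_mul, add_zero, I_true, mul_one, sum_const', and_self]
      ring
    · rw [I_neg h0]
      simp only [mul_zero, sub_zero, add_zero]
      by_cases ha : a = 0
      · by_cases hb : b = 0
        · by_cases hc : c = 0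
          · have hd : d ≠ 0 := fun hd => h0 ⟨ha, hb, hc, hd⟩
            rw [← two_aux (a := d) (b := c) (c := b) (d := a) hd (by linear_combination h)]
            refine sum_congr rfl fun s _ => sum_congr rfl fun t _ => ?_
            rw [mul_comm, add_comm (c * s), add_comm (a * s)]
          · rw [← two_aux (a := c) (b := d) (c := a) (d := b) hc (by linear_combination -h),
              sum_comm]
            refine sum_congr rfl fun s _ => sum_congr rfl fun t _ => ?_
            rw [mul_comm]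
        · rw [← two_aux (a := b) (b := a) (c := d) (d := c) hb (by linear_combination -h)]
          refine sum_congr rfl fun s _ => sum_congr rfl fun t _ => ?_
          rw [add_comm (c * s), add_comm (a * s)]
      · rw [← two_aux ha h, sum_comm]
  · have h0 : ¬ (a = 0 ∧ b = 0 ∧ c = 0 ∧ d = 0) := by
      rintro ⟨rfl, rfl, -, -⟩
      simp at h
    rw [I_neg h0, I_pos h]
    have : ∀ s t : F, I (a * s + b * t = 0) * I (c * s + d * t = 0) = I (s = 0) * I (t = 0) := by
      intro s t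
      rw [← I_and, ← I_and]
      refine I_congr ⟨fun ⟨h1, h2⟩ => ⟨?_, ?_⟩, ?_⟩
      · apply mul_left_cancel₀ h
        linear_combination d * h1 - b * h2
      · apply mul_left_cancel₀ h
        linear_combination a * h2 - c * h1
      · rintro ⟨rfl, rfl⟩
        simp
    simp only [this, ← mul_sum, ← sum_mul, sum_I_eq]
    ring

/-- `b` is proportional to `a` (for `a₃ ≠ 0`). -/
def Pr (a b : V F) : Prop := b.1 * a.2.2 - a.1 * b.2.2 = 0 ∧ b.2.1 * a.2.2 - a.2.1 * b.2.2 = 0

instance (a b : V F) : Decidable (Pr a b) := by unfold Pr; infer_instance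

theorem k_lemma {a : V F} (ha : a.2.2 ≠ 0) (b c : V F) :
    ∑ n : V F, I (dot n a = 0) * I (dot n b = 0) * I (dot n c = 0) =
      q F - (q F - 1) * I (D a b c ≠ 0) + (q F ^ 2 - q F) * (I (Pr a b) * I (Pr a c)) := by
  have key := two_sys (b.1 * a.2.2 - a.1 * b.2.2) (b.2.1 * a.2.2 - a.2.1 * b.2.2)
    (c.1 * a.2.2 - a.1 * c.2.2) (c.2.1 * a.2.2 - a.2.1 * c.2.2)
  have e1 : ((b.1 * a.2.2 - a.1 * b.2.2) * (c.2.1 * a.2.2 - a.2.1 * c.2.2) -
      (b.2.1 * a.2.2 - a.2.1 * b.2.2) * (c.1 * a.2.2 - a.1 * c.2.2) ≠ 0) ↔ D a b c ≠ 0 := by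
    have : (b.1 * a.2.2 - a.1 * b.2.2) * (c.2.1 * a.2.2 - a.2.1 * c.2.2) -
      (b.2.1 * a.2.2 - a.2.1 * b.2.2) * (c.1 * a.2.2 - a.1 * c.2.2) = a.2.2 * D a b c := by
      unfold D; ring
    rw [this]
    simp [ha]
  have e2 : (b.1 * a.2.2 - a.1 * b.2.2 = 0 ∧ b.2.1 * a.2.2 - a.2.1 * b.2.2 = 0 ∧
      c.1 * a.2.2 - a.1 * c.2.2 = 0 ∧ c.2.1 * a.2.2 - a.2.1 * c.2.2 = 0) ↔ Pr a b ∧ Pr a c := by
    simp only [Pr, and_assoc]
  rw [I_congr e1, I_congr e2, I_and] at key
  rw [← key]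
  simp only [Fintype.sum_prod_type]
  refine sum_congr rfl fun s _ => sum_congr rfl fun t _ => ?_
  rw [← sum_I_eq_mul (-(s * a.1 + t * a.2.1) / a.2.2) (fun _ =>
    I ((b.1 * a.2.2 - a.1 * b.2.2) * s + (b.2.1 * a.2.2 - a.2.1 * b.2.2) * t = 0) *
      I ((c.1 * a.2.2 - a.1 * c.2.2) * s + (c.2.1 * a.2.2 - a.2.1 * c.2.2) * t = 0))]
  refine sum_congr rfl fun z _ => ?_
  rw [← I_and, ← I_and, ← I_and, ← I_and]
  refine I_congr ?_
  simp only [dot, eq_div_iff ha]
  constructor
  · rintro ⟨⟨h1, h2⟩, h3⟩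
    refine ⟨by linear_combination h1, by linear_combination a.2.2 * h2 - b.2.2 * h1,
      by linear_combination a.2.2 * h3 - c.2.2 * h1⟩
  · rintro ⟨h1, h2, h3⟩
    refine ⟨⟨by linear_combination h1, ?_⟩, ?_⟩
    · apply mul_left_cancel₀ ha
      linear_combination h2 + b.2.2 * h1
    · apply mul_left_cancel₀ ha
      linear_combination h3 + c.2.2 * h1

theorem pr_sum {a : V F} (ha : a.2.2 ≠ 0) (f : V F → ℤ) :
    ∑ b : V F, f b * I (Pr a b) = ∑ t : F, f (a.1 * t, a.2.1 * t, a.2.2 * t) := by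
  have : ∀ b : V F, f b * I (Pr a b) = ∑ t : F, I (b = (a.1 * t, a.2.1 * t, a.2.2 * t)) * f b := by
    intro b
    rw [← sum_mul, mul_comm]
    congr 1
    by_cases h : Pr a b
    · rw [I_pos h, ← sum_I_eq (b.2.2 / a.2.2)]
      refine sum_congr rfl fun t _ => I_congr ?_
      obtain ⟨h1, h2⟩ := h
      rw [eq_div_iff ha]
      constructor
      · intro h
        refine Prod.ext ?_ (Prod.ext ?_ ?_)
        · apply mul_left_cancel₀ ha
          linear_combination h1 - a.1 * h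
        · apply mul_left_cancel₀ ha
          linear_combination h2 - a.2.1 * h
        · linear_combination -h
      · intro h
        have := congrArg (fun v : V F => v.2.2) h
        linear_combination -this
    · rw [I_neg h]
      symm
      refine sum_eq_zero fun t _ => I_neg ?_
      rintro rfl
      exact h ⟨by ring, by ring⟩
  simp only [this]
  rw [sum_comm]
  refine sum_congr rfl fun t _ => ?_
  simp [I]

theorem pr5 {a : V F} (ha : a.2.2 ≠ 0) : ∑ b : V F, S5 b * I (Pr a b) = (q F - 1) * S5 a := by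
  rw [pr_sum ha, ← sum_I_ne (0 : F), sum_mul]
  refine sum_congr rfl fun t _ => ?_
  by_cases ht : t = 0
  · simp [S5, I, ht]
  · simp [S5, I, ht]

theorem pr6 {a : V F} (ha : a.2.2 ≠ 0) : ∑ b : V F, S6 b * I (Pr a b) = (q F - 1) * S6 a := by
  rw [pr_sum ha, ← sum_I_ne (0 : F), sum_mul]
  refine sum_congr rfl fun t _ => ?_
  by_cases ht : t = 0
  · simp [S6, I, ht]
  · simp [S6, I, ht]

theorem avoid2 {a b : F} (h : a ≠ b) : ∑ x : F, I (x ≠ a) * I (x ≠ b) = q F - 2 := by
  have : ∀ x : F, I (x ≠ a) * I (x ≠ b) = 1 - I (x = a) - I (x = b) := by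
    intro x
    by_cases h1 : x = a
    · subst h1; simp [I, h]
    · by_cases h2 : x = b
      · subst h2; simp [I, h1]
      · simp [I, h1, h2]
  simp only [this, sum_sub_distrib, sum_I_eq, sum_const']
  ring

theorem avoid3 {a b c : F} (h : a ≠ b) (h' : a ≠ c) (h'' : b ≠ c) :
    ∑ x : F, I (x ≠ a) * I (x ≠ b) * I (x ≠ c) = q F - 3 := by
  have : ∀ x : F, I (x ≠ a) * I (x ≠ b) * I (x ≠ c) = 1 - I (x = a) - I (x = b) - I (x = c) := by
    intro x
    by_cases h1 : x = a
    · subst h1; simp [I, h, h']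
    · by_cases h2 : x = b
      · subst h2; simp [I, h1, h'']
      · by_cases h3 : x = c
        · subst h3; simp [I, h1, h2]
        · simp [I, h1, h2, h3]
  simp only [this, sum_sub_distrib, sum_I_eq, sum_const']
  ring

theorem S456 : ∑ a : V F, S4 a * S5 a * S6 a = (q F - 1) * (q F - 2) * (q F - 3) := by
  simp only [Fintype.sum_prod_type]
  rw [sum_comm]
  simp_rw [sum_comm (s := (univ : Finset F)) (f := fun x z : F =>
    S4 (x, _, z) * S5 (x, _, z) * S6 (x, _, z))]
  have h1 : ∀ y z : F, ∑ x : F, S4 (x, y, z) * S5 (x, y, z) * S6 (x, y, z) =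
      I (y ≠ 0) * (I (z ≠ 0) * I (z ≠ y) * (q F - 3)) := by
    intro y z
    by_cases hy : y = 0
    · simp [S5, I, hy]
    by_cases hz : z = 0
    · simp [S4, I, hz]
    by_cases hyz : z = y
    · simp [S6, I, hyz]
    rw [← avoid3 (Ne.symm hy) (Ne.symm hz) (Ne.symm hyz), I_pos hy, I_pos hz, I_pos hyz]
    simp only [one_mul]
    refine sum_congr rfl fun x _ => ?_
    simp only [S4, S5, S6, I_pos hy, I_pos hz, I_pos (Ne.symm hyz)]
    ring
  have h2 : ∀ y : F, ∑ z : F, I (y ≠ 0) * (I (z ≠ 0) * I (z ≠ y) * (q F - 3)) =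
      I (y ≠ 0) * ((q F - 2) * (q F - 3)) := by
    intro y
    by_cases hy : y = 0
    · simp [I, hy]
    · rw [← mul_sum, ← sum_mul, avoid2 (Ne.symm hy)]
  simp only [h1, h2, ← sum_mul, sum_I_ne]
  ring

variable (F) in
/-- The normalised count. -/
def Nind : ℤ := ∑ a : V F, ∑ b : V F, ∑ c : V F, S4 a * S5 b * S6 c * I (D a b c ≠ 0)

/-- The part of `(q - 1) * Nind` that is a polynomial in `q`. -/
def Qp {R : Type} [CommRing R] (x : R) : R :=
  x * (x * (x - 1) ^ 2) ^ 3 - (x - 1) ^ 3 * (x ^ 3 * (x - 1) ^ 3 + 3 * (x - 1) ^ 4 * (x - 2) +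
      (x - 1) * ((x - 1) ^ 2 * ((x - 1) ^ 3 + 2 * (x - 1)) + (x - 1) +
        ((x - 1) ^ 3 + 2 * (x - 1)))) + (x ^ 2 - x) * (x - 1) ^ 2 * ((x - 1) * (x - 2) * (x - 3))

theorem Nind_eq : (q F - 1) * Nind F = Qp (q F) - (q F - 1) ^ 3 * tau F := by
  have h1 : ∑ n : V F, (∑ a : V F, S4 a * I (dot n a = 0)) * (∑ a : V F, S5 a * I (dot n a = 0)) *
      (∑ a : V F, S6 a * I (dot n a = 0)) = (q F - 1) ^ 3 * ∑ x : F, ∑ y : F, ∑ z : F, RR x y z := by
    simp only [s4_eq, s5_eq, s6_eq]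
    simp only [Fintype.sum_prod_type, mul_sum, RR]
    refine sum_congr rfl fun x _ => sum_congr rfl fun y _ => sum_congr rfl fun z _ => ?_
    ring
  have h2 : ∑ n : V F, (∑ a : V F, S4 a * I (dot n a = 0)) * (∑ a : V F, S5 a * I (dot n a = 0)) *
      (∑ a : V F, S6 a * I (dot n a = 0)) = ∑ a : V F, ∑ b : V F, ∑ c : V F,
        S4 a * S5 b * S6 c * ∑ n : V F, I (dot n a = 0) * I (dot n b = 0) * I (dot n c = 0) := by
    simp only [sum_mul, mul_sum]
    rw [sum_comm]
    refine Eq.trans (sum_congr rfl fun c _ => sum_comm) ?_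
    refine Eq.trans (sum_congr rfl fun c _ => sum_congr rfl fun b _ => sum_comm) ?_
    rw [sum_comm]
    refine Eq.trans (sum_congr rfl fun b _ => sum_comm) ?_
    rw [sum_comm]
    refine sum_congr rfl fun a _ => sum_congr rfl fun b _ => sum_congr rfl fun c _ =>
      sum_congr rfl fun n _ => ?_
    ring
  have h3 : ∀ a : V F, ∑ b : V F, ∑ c : V F,
      S4 a * S5 b * S6 c * ∑ n : V F, I (dot n a = 0) * I (dot n b = 0) * I (dot n c = 0) =
      q F * (S4 a * (q F * (q F - 1) ^ 2) ^ 2) -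
        (q F - 1) * (∑ b : V F, ∑ c : V F, S4 a * S5 b * S6 c * I (D a b c ≠ 0)) +
        (q F ^ 2 - q F) * (q F - 1) ^ 2 * (S4 a * S5 a * S6 a) := by
    intro a
    by_cases ha : a.2.2 = 0
    · simp [S4, I, ha]
    have e : ∀ b c : V F, S4 a * S5 b * S6 c *
        ∑ n : V F, I (dot n a = 0) * I (dot n b = 0) * I (dot n c = 0) =
        q F * S4 a * (S5 b * S6 c) - (q F - 1) * (S4 a * S5 b * S6 c * I (D a b c ≠ 0)) +
          (q F ^ 2 - q F) * S4 a * ((S5 b * I (Pr a b)) * (S6 c * I (Pr a c))) := by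
      intro b c
      rw [k_lemma ha]; ring
    simp only [e, sum_add_distrib, sum_sub_distrib, ← mul_sum, ← sum_mul, S5_sum, S6_sum,
      pr5 ha, pr6 ha]
    ring
  rw [h2, sum_RR] at h1
  simp only [h3, sum_add_distrib, sum_sub_distrib, ← mul_sum, ← sum_mul, S4_sum, S456] at h1
  unfold Qp Nind
  linear_combination -h1

end Pool.Agent.H.MP_6fdec2_co
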