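import Pool.Agent.H.MP_6fdec2_co.Count

set_option autoImplicit false
set_option linter.unusedSectionVars false
set_option linter.unusedSimpArgs false

namespace Pool.Agent.H.MP_6fdec2_co

open Finset

variable {F : Type} [Field F] [Fintype F] [DecidableEq F]

def phi (u v w x : V F) : V F := x.1 • u + x.2.1 • v + x.2.2 • w

theorem D_ne_iff (u v w : V F) :
    D u v w ≠ 0 ↔ ∀ a b c : F, a • u + b • v + c • w = 0 → a = 0 ∧ b = 0 ∧ c = 0 := by
  constructor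
  · intro h a b c e
    have e1 : a * u.1 + b * v.1 + c * w.1 = 0 := congrArg (fun x : V F => x.1) e
    have e2 : a * u.2.1 + b * v.2.1 + c * w.2.1 = 0 := congrArg (fun x : V F => x.2.1) e
    have e3 : a * u.2.2 + b * v.2.2 + c * w.2.2 = 0 := congrArg (fun x : V F => x.2.2) e
    refine ⟨?_, ?_, ?_⟩ <;> apply mul_left_cancel₀ h <;> unfold D
    · linear_combination (v.2.1 * w.2.2 - v.2.2 * w.2.1) * e1 - (v.1 * w.2.2 - v.2.2 * w.1) * e2 +
        (v.1 * w.2.1 - v.2.1 * w.1) * e3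
    · linear_combination (w.2.1 * u.2.2 - w.2.2 * u.2.1) * e1 - (w.1 * u.2.2 - w.2.2 * u.1) * e2 +
        (w.1 * u.2.1 - w.2.1 * u.1) * e3
    · linear_combination (u.2.1 * v.2.2 - u.2.2 * v.2.1) * e1 - (u.1 * v.2.2 - u.2.2 * v.1) * e2 +
        (u.1 * v.2.1 - u.2.1 * v.1) * e3
  · intro h hD
    have hdet : (!![u.1, u.2.1, u.2.2; v.1, v.2.1, v.2.2; w.1, w.2.1, w.2.2] :
        Matrix (Fin 3) (Fin 3) F).det = 0 := by
      rw [Matrix.det_fin_three]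
      unfold D at hD
      simp
      linear_combination hD
    obtain ⟨x, hx, e⟩ := Matrix.exists_vecMul_eq_zero_iff.2 hdet
    have e1 := congrFun e 0
    have e2 := congrFun e 1
    have e3 := congrFun e 2
    simp [Matrix.vecMul, dotProduct, Fin.sum_univ_three] at e1 e2 e3
    obtain ⟨h0, h1, h2⟩ := h (x 0) (x 1) (x 2) (Prod.ext e1 (Prod.ext e2 e3))
    apply hx
    funext i
    fin_cases i <;> assumption

theorem phi_bij {u v w : V F} (h : D u v w ≠ 0) : Function.Bijective (phi u v w) := by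
  rw [← Finite.injective_iff_bijective]
  intro x y e
  obtain ⟨h0, h1, h2⟩ := (D_ne_iff u v w).1 h (x.1 - y.1) (x.2.1 - y.2.1) (x.2.2 - y.2.2) (by
    unfold phi at e
    simp only [sub_smul]
    rw [← sub_eq_zero] at e
    rw [← e]
    abel)
  exact Prod.ext (sub_eq_zero.1 h0) (Prod.ext (sub_eq_zero.1 h1) (sub_eq_zero.1 h2))

def Inn (u0 u1 u2 u3 : V F) : ℤ := ∑ a : V F, ∑ b : V F, ∑ c : V F,
  (I (D u0 u1 a ≠ 0) * I (D u2 u3 a ≠ 0)) * (I (D u0 u2 b ≠ 0) * I (D u1 u3 b ≠ 0)) *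
    (I (D u1 u2 c ≠ 0) * I (D u0 u3 c ≠ 0)) * I (D a b c ≠ 0)

theorem I_mul_ne {k x y : F} (hk : k ≠ 0) (h : x = k * y) : I (x ≠ 0) = I (y ≠ 0) :=
  I_congr (by rw [h]; simp [hk])

theorem I_mul_ne' {k x y z : F} (hk : k ≠ 0) (h : x = k * (y - z)) : I (x ≠ 0) = I (y ≠ z) :=
  I_congr (by rw [h]; simp [hk, sub_eq_zero])

theorem Inn_eq {u0 u1 u2 : V F} (h : D u0 u1 u2 ≠ 0) {l : V F} (h0 : l.1 ≠ 0) (h1 : l.2.1 ≠ 0)
    (h2 : l.2.2 ≠ 0) : Inn u0 u1 u2 (phi u0 u1 u2 l) = Nind F := by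
  have hD : D (l.1 • u0) (l.2.1 • u1) (l.2.2 • u2) = l.1 * l.2.1 * l.2.2 * D u0 u1 u2 := by
    simp only [D, Prod.smul_fst, Prod.smul_snd, smul_eq_mul]; ring
  have hD' : D (l.1 • u0) (l.2.1 • u1) (l.2.2 • u2) ≠ 0 := by
    rw [hD]; simp [h0, h1, h2, h]
  have hb := phi_bij hD'
  unfold Inn Nind
  rw [← hb.sum_comp]
  refine sum_congr rfl fun a _ => ?_
  rw [← hb.sum_comp]
  refine sum_congr rfl fun b _ => ?_
  rw [← hb.sum_comp]
  refine sum_congr rfl fun c _ => ?_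
  unfold S4 S5 S6
  rw [I_mul_ne (x := D u0 u1 _) (k := l.2.2 * D u0 u1 u2) (y := a.2.2) (by simp [h, h2]),
    I_mul_ne' (x := D u2 _ _) (k := -(l.1 * l.2.1 * D u0 u1 u2)) (y := a.1) (z := a.2.1)
      (by simp [h, h0, h1]),
    I_mul_ne (x := D u0 u2 _) (k := -(l.2.1 * D u0 u1 u2)) (y := b.2.1) (by simp [h, h1]),
    I_mul_ne' (x := D u1 _ _) (k := l.1 * l.2.2 * D u0 u1 u2) (y := b.1) (z := b.2.2)
      (by simp [h, h0, h2]),
    I_mul_ne (x := D u1 u2 _) (k := l.1 * D u0 u1 u2) (y := c.1) (by simp [h, h0]),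
    I_mul_ne' (x := D u0 _ _) (k := -(l.2.1 * l.2.2 * D u0 u1 u2)) (y := c.2.1) (z := c.2.2)
      (by simp [h, h1, h2]),
    I_mul_ne (x := D (phi _ _ _ a) _ _) (k := l.1 * l.2.1 * l.2.2 * D u0 u1 u2) (y := D a b c)
      (by simp [h, h0, h1, h2])]
  all_goals
    simp only [D, phi, Prod.smul_fst, Prod.smul_snd, Prod.fst_add, Prod.snd_add, smul_eq_mul]
    ring

theorem Frame_eq {u0 u1 u2 : V F} (h : D u0 u1 u2 ≠ 0) :
    ∑ u3 : V F, I (D u0 u1 u3 ≠ 0) * I (D u0 u2 u3 ≠ 0) * I (D u1 u2 u3 ≠ 0) * Inn u0 u1 u2 u3 =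
      (q F - 1) ^ 3 * Nind F := by
  rw [← (phi_bij h).sum_comp]
  have : ∀ l : V F, I (D u0 u1 (phi u0 u1 u2 l) ≠ 0) * I (D u0 u2 (phi u0 u1 u2 l) ≠ 0) *
      I (D u1 u2 (phi u0 u1 u2 l) ≠ 0) * Inn u0 u1 u2 (phi u0 u1 u2 l) =
      I (l.1 ≠ 0) * (I (l.2.1 ≠ 0) * (I (l.2.2 ≠ 0) * Nind F)) := by
    intro l
    rw [I_mul_ne (x := D u0 u1 _) (k := D u0 u1 u2) (y := l.2.2) h,
      I_mul_ne (x := D u0 u2 _) (k := - D u0 u1 u2) (y := l.2.1) (by simp [h]),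
      I_mul_ne (x := D u1 u2 _) (k := D u0 u1 u2) (y := l.1) h]
    · by_cases h0 : l.1 = 0
      · simp [I, h0]
      by_cases h1 : l.2.1 = 0
      · simp [I, h1]
      by_cases h2 : l.2.2 = 0
      · simp [I, h2]
      rw [Inn_eq h h0 h1 h2]; ring
    all_goals
      simp only [D, phi, Prod.smul_fst, Prod.smul_snd, Prod.fst_add, Prod.snd_add, smul_eq_mul]
      ring
  simp only [this, Fintype.sum_prod_type]
  change ∑ x : F, ∑ y : F, ∑ z : F, I (x ≠ 0) * (I (y ≠ 0) * (I (z ≠ 0) * Nind F)) = _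
  simp only [← mul_sum, ← sum_mul, sum_I_ne]
  ring

theorem bases_eq : ∑ u0 : V F, ∑ u1 : V F, ∑ u2 : V F, I (D u0 u1 u2 ≠ 0) =
    (q F ^ 3 - 1) * (q F ^ 3 - q F) * (q F ^ 3 - q F ^ 2) := by
  classical
  have hn : Module.finrank F (V F) = 3 := by simp
  have h := card_linearIndependent (K := F) (V := V F) (k := 3) (by rw [hn])
  rw [hn, Fin.prod_univ_three, Nat.card_eq_fintype_card, Fintype.card_subtype] at h
  have h1 : 1 ≤ Fintype.card F := Fintype.card_pos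
  have h' := congrArg (Nat.cast : ℕ → ℤ) h
  rw [Nat.cast_mul, Nat.cast_mul, Nat.cast_sub (Nat.pow_le_pow_right h1 (by simp)),
    Nat.cast_sub (Nat.pow_le_pow_right h1 (by simp)),
    Nat.cast_sub (Nat.pow_le_pow_right h1 (by simp)), card_filter] at h'
  simp only [Fin.val_zero, Fin.val_one, Fin.val_two, pow_zero, pow_one] at h'
  push_cast at h'
  unfold q
  rw [← h']
  let e : (Fin 3 → V F) ≃ V F × V F × V F :=
    { toFun := fun s => (s 0, s 1, s 2)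
      invFun := fun p => ![p.1, p.2.1, p.2.2]
      left_inv := fun s => by funext i; fin_cases i <;> rfl
      right_inv := fun p => rfl }
  rw [← Fintype.sum_prod_type', ← Fintype.sum_prod_type',
    ← (e.trans (Equiv.prodAssoc _ _ _).symm).sum_comp]
  refine sum_congr rfl fun s _ => ?_
  change I (D (s 0) (s 1) (s 2) ≠ 0) = I (LinearIndependent F s)
  refine I_congr ?_
  rw [D_ne_iff, Fintype.linearIndependent_iff]
  constructor
  · intro h g hg i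
    rw [Fin.sum_univ_three] at hg
    obtain ⟨h0, h1, h2⟩ := h _ _ _ hg
    fin_cases i <;> assumption
  · intro h a b c e
    have := h ![a, b, c] (by rw [Fin.sum_univ_three]; exact e)
    exact ⟨this 0, this 1, this 2⟩

variable (F) in
/-- number of `3 × 7` matrices with the eleven triples of columns independent -/
def Ntot : ℤ := ∑ u0 : V F, ∑ u1 : V F, ∑ u2 : V F, ∑ u3 : V F,
  I (D u0 u1 u2 ≠ 0) *
    (I (D u0 u1 u3 ≠ 0) * I (D u0 u2 u3 ≠ 0) * I (D u1 u2 u3 ≠ 0) * Inn u0 u1 u2 u3)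

theorem Ntot_eq : Ntot F = (q F ^ 3 - 1) * (q F ^ 3 - q F) * (q F ^ 3 - q F ^ 2) * (q F - 1) ^ 2 *
    (Qp (q F) - (q F - 1) ^ 3 * tau F) := by
  have : ∀ u0 u1 u2 : V F, ∑ u3 : V F, I (D u0 u1 u2 ≠ 0) *
      (I (D u0 u1 u3 ≠ 0) * I (D u0 u2 u3 ≠ 0) * I (D u1 u2 u3 ≠ 0) * Inn u0 u1 u2 u3) =
      I (D u0 u1 u2 ≠ 0) * ((q F - 1) ^ 3 * Nind F) := by
    intro u0 u1 u2
    by_cases h : D u0 u1 u2 = 0
    · simp [I, h]
    · rw [← mul_sum, Frame_eq h]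
  unfold Ntot
  simp only [this, ← sum_mul, bases_eq]
  rw [← Nind_eq]
  ring

theorem tau_odd (h : (2 : F) ≠ 0) : tau F = 0 := by
  refine sum_eq_zero fun x _ => ?_
  by_cases hx : x = 0
  · simp [I, hx]
  · rw [I_neg (P := x + x = 0), mul_zero]
    rw [← two_mul]
    simp [h, hx]

end Pool.Agent.H.MP_6fdec2_co
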