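import Mathlib

set_option autoImplicit false
set_option linter.unusedSectionVars false
set_option linter.unusedSimpArgs false

namespace Pool.Agent.H.MP_6fdec2_co

open Finset

variable {F : Type} [Field F] [Fintype F] [DecidableEq F]

/-- indicator -/
def I (P : Prop) [Decidable P] : ℤ := if P then 1 else 0

theorem I_and (P Q : Prop) [Decidable P] [Decidable Q] : I (P ∧ Q) = I P * I Q := by
  unfold I; by_cases P <;> by_cases Q <;> simp [*]

theorem I_congr {P Q : Prop} [Decidable P] [Decidable Q] (h : P ↔ Q) : I P = I Q := by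
  unfold I; by_cases hp : P <;> simp [← h, hp]

theorem I_pos {P : Prop} [Decidable P] (h : P) : I P = 1 := if_pos h
theorem I_neg {P : Prop} [Decidable P] (h : ¬ P) : I P = 0 := if_neg h

theorem I_true [Decidable True] : I True = 1 := if_pos trivial

theorem I_not (P : Prop) [Decidable P] : I (¬ P) = 1 - I P := by
  unfold I; by_cases P <;> simp [*]

theorem I_sq (P : Prop) [Decidable P] : I P * I P = I P := by
  unfold I; by_cases P <;> simp [*]

variable (F) in
/-- the order of the field -/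
def q : ℤ := Fintype.card F

theorem sum_const' (c : ℤ) : ∑ _x : F, c = q F * c := by simp [q]

theorem sum_I_eq (a : F) : ∑ x : F, I (x = a) = 1 := by simp [I]

theorem sum_I_eq_mul (a : F) (f : F → ℤ) : ∑ x : F, I (x = a) * f x = f a := by simp [I]

theorem sum_I_lin {m : F} (hm : m ≠ 0) (c : F) : ∑ x : F, I (m * x + c = 0) = 1 := by
  rw [← sum_I_eq (-c / m)]
  refine sum_congr rfl fun x _ => I_congr ?_
  rw [eq_div_iff hm]
  constructor <;> intro h <;> linear_combination h

theorem sum_I_ne (a : F) : ∑ x : F, I (x ≠ a) = q F - 1 := by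
  simp only [ne_eq, I_not, sum_sub_distrib, sum_I_eq, sum_const', mul_one]

/-- `ρ` -/
def rho (m a b : F) : ℤ :=
  (q F - 1) + I (m = 0) * (1 - q F * I (a = 0) - q F * I (b = 0) + q F ^ 2 * (I (a = 0) * I (b = 0)))

theorem sigma_eq (m a b : F) :
    ∑ x : F, ∑ u : F, ∑ z : F, I (u ≠ 0) * I (z ≠ 0) * I (m * x + (a * u + b * z) = 0)
      = (q F - 1) * rho m a b := by
  unfold rho
  by_cases hm : m = 0
  · subst hm
    simp only [zero_mul, zero_add, sum_const', I_true]
    by_cases ha : a = 0 <;> by_cases hb : b = 0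
    · subst ha hb
      simp only [zero_mul, add_zero, I_true, mul_one, ← mul_sum, ← sum_mul,
        sum_I_ne]
      ring
    · subst ha
      have : ∀ u z : F, I (u ≠ 0) * I (z ≠ 0) * I (0 * u + b * z = 0) = 0 := by
        intro u z
        by_cases hz : z = 0 <;> simp [I, hz, hb]
      simp only [this, sum_const_zero, I_true, I_neg hb]
      ring
    · subst hb
      have : ∀ u z : F, I (u ≠ 0) * I (z ≠ 0) * I (a * u + 0 * z = 0) = 0 := by
        intro u z
        by_cases hz : u = 0 <;> simp [I, hz, ha]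
      simp only [this, sum_const_zero, I_true, I_neg ha]
      ring
    · have : ∀ u : F, ∑ z : F, I (u ≠ 0) * I (z ≠ 0) * I (a * u + b * z = 0) = I (u ≠ 0) := by
        intro u
        by_cases hu : u = 0
        · simp [I, hu]
        · rw [I_pos hu]
          refine Eq.trans (sum_congr rfl fun z _ => ?_) (sum_I_lin hb (a * u))
          by_cases hz : z = 0
          · simp [I, hz, ha, hu]
          · rw [I_pos hz, add_comm]; simp
      simp only [this, sum_I_ne, I_neg ha, I_neg hb]
      ring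
  · rw [sum_comm]
    simp_rw [sum_comm (s := (univ : Finset F)) (f := fun x z : F =>
      I (_ ≠ (0 : F)) * I (z ≠ 0) * I (m * x + (a * _ + b * z) = 0))]
    simp only [← mul_sum, sum_I_lin hm, mul_one, ← sum_mul, sum_I_ne, I_neg hm]
    ring

/-- vectors of `F³` -/
abbrev V (F : Type) := F × F × F

def dot (n a : V F) : F := n.1 * a.1 + n.2.1 * a.2.1 + n.2.2 * a.2.2

def D (u v w : V F) : F :=
  u.1 * (v.2.1 * w.2.2 - v.2.2 * w.2.1) - u.2.1 * (v.1 * w.2.2 - v.2.2 * w.1) +
    u.2.2 * (v.1 * w.2.1 - v.2.1 * w.1)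

def S4 (a : V F) : ℤ := I (a.2.2 ≠ 0) * I (a.1 ≠ a.2.1)
def S5 (a : V F) : ℤ := I (a.2.1 ≠ 0) * I (a.1 ≠ a.2.2)
def S6 (a : V F) : ℤ := I (a.1 ≠ 0) * I (a.2.1 ≠ a.2.2)

theorem shift (x : F) (f : F → ℤ) : ∑ y, f y = ∑ u, f (x + u) :=
  (Equiv.sum_comp (Equiv.addLeft x) f).symm

theorem s4_eq (n : V F) : ∑ a : V F, S4 a * I (dot n a = 0) =
    (q F - 1) * rho (n.1 + n.2.1) n.2.1 n.2.2 := by
  rw [← sigma_eq]
  simp only [Fintype.sum_prod_type]
  refine sum_congr rfl fun x _ => ?_
  rw [shift x]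
  refine sum_congr rfl fun u _ => sum_congr rfl fun z _ => ?_
  simp only [S4, dot]
  rw [I_congr (show x ≠ x + u ↔ u ≠ 0 by simp), mul_comm (I (z ≠ 0))]
  congr 1
  refine I_congr ?_
  constructor <;> intro h <;> linear_combination h

theorem s5_eq (n : V F) : ∑ a : V F, S5 a * I (dot n a = 0) =
    (q F - 1) * rho (n.1 + n.2.2) n.2.2 n.2.1 := by
  rw [← sigma_eq]
  simp only [Fintype.sum_prod_type]
  refine sum_congr rfl fun x _ => ?_
  rw [sum_comm, shift x]
  refine sum_congr rfl fun u _ => sum_congr rfl fun z _ => ?_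
  simp only [S5, dot]
  rw [I_congr (show x ≠ x + u ↔ u ≠ 0 by simp), mul_comm (I (z ≠ 0))]
  congr 1
  refine I_congr ?_
  constructor <;> intro h <;> linear_combination h

theorem s6_eq (n : V F) : ∑ a : V F, S6 a * I (dot n a = 0) =
    (q F - 1) * rho (n.2.1 + n.2.2) n.2.2 n.1 := by
  rw [← sigma_eq]
  simp only [Fintype.sum_prod_type]
  rw [sum_comm]
  refine sum_congr rfl fun x _ => ?_
  rw [sum_comm, shift x]
  refine sum_congr rfl fun u _ => sum_congr rfl fun z _ => ?_
  simp only [S6, dot]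
  rw [I_congr (show x ≠ x + u ↔ u ≠ 0 by simp), mul_comm (I (z ≠ 0))]
  congr 1
  refine I_congr ?_
  constructor <;> intro h <;> linear_combination h

theorem rho_zero : rho (0 : F) 0 0 = q F * (q F - 1) := by
  simp only [rho, I_true]; ring

theorem S4_sum : ∑ a : V F, S4 a = q F * (q F - 1) ^ 2 := by
  have := s4_eq (0 : V F)
  simp only [dot, Prod.fst_zero, Prod.snd_zero, zero_mul, add_zero, I_true,
    mul_one, rho_zero] at this
  rw [this]; ring

theorem S5_sum : ∑ a : V F, S5 a = q F * (q F - 1) ^ 2 := by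
  have := s5_eq (0 : V F)
  simp only [dot, Prod.fst_zero, Prod.snd_zero, zero_mul, add_zero, I_true,
    mul_one, rho_zero] at this
  rw [this]; ring

theorem S6_sum : ∑ a : V F, S6 a = q F * (q F - 1) ^ 2 := by
  have := s6_eq (0 : V F)
  simp only [dot, Prod.fst_zero, Prod.snd_zero, zero_mul, add_zero, I_true,
    mul_one, rho_zero] at this
  rw [this]; ring

theorem split0 (f : F → ℤ) : ∑ x, f x = f 0 + ∑ x, I (x ≠ 0) * f x := by
  rw [← sum_I_eq_mul 0 f, ← sum_add_distrib]
  refine sum_congr rfl fun x _ => ?_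
  rw [show I (x ≠ 0) = 1 - I (x = 0) from I_not _]; ring

variable (F) in
/-- number of nonzero `x` with `x + x = 0` -/
def tau : ℤ := ∑ x : F, I (x ≠ 0) * I (x + x = 0)

def RR (x y z : F) : ℤ := rho (x + y) y z * rho (x + z) z y * rho (y + z) z x

theorem sum_nz_lin {x : F} (hx : x ≠ 0) (c : ℤ) :
    ∑ y : F, I (y ≠ 0) * (c * (1 - I (x + y = 0))) = c * (q F - 2) := by
  have : ∀ y : F, I (y ≠ 0) * (c * (1 - I (x + y = 0))) =
      c * I (y ≠ 0) - c * I (y = -x) := by
    intro y
    rw [I_congr (show x + y = 0 ↔ y = -x from by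
      constructor <;> intro h <;> linear_combination h)]
    by_cases hy : y = -x
    · have : y ≠ 0 := by rw [hy]; simpa using hx
      rw [I_pos hy, I_pos this]; ring
    · rw [I_neg hy]; ring
  simp only [this, sum_sub_distrib, ← mul_sum, sum_I_ne, sum_I_eq]
  ring

theorem sum_RR : ∑ x : F, ∑ y : F, ∑ z : F, RR x y z =
    q F ^ 3 * (q F - 1) ^ 3 + 3 * (q F - 1) ^ 4 * (q F - 2) +
      (q F - 1) * ((q F - 1) ^ 2 * ((q F - 1) ^ 3 + 2 * (q F - 1)) + (q F - 1) +
        ((q F - 1) ^ 3 + 2 * (q F - 1))) + tau F := by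
  have h000 : RR (0 : F) 0 0 = q F ^ 3 * (q F - 1) ^ 3 := by
    simp only [RR, add_zero, rho_zero]; ring
  have h00z : ∀ z : F, I (z ≠ 0) * RR 0 0 z = 0 := by
    intro z; by_cases hz : z = 0 <;> simp [RR, rho, I, hz]
  have h0y0 : ∀ z : F, z ≠ 0 → RR 0 z 0 = 0 := by
    intro z hz; simp [RR, rho, I, hz]
  have hx00 : ∀ z : F, z ≠ 0 → RR z 0 0 = 0 := by
    intro z hz; simp [RR, rho, I, hz]
  have h0yz : ∀ y : F, y ≠ 0 → ∀ z : F, I (z ≠ 0) * RR 0 y z =
      I (z ≠ 0) * ((q F - 1) ^ 3 * (1 - I (y + z = 0))) := by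
    intro y hy z
    by_cases hz : z = 0
    · simp [I, hz]
    · by_cases h : y + z = 0 <;> simp [RR, rho, I, hz, hy, h]
      ring
  have hx0z : ∀ y : F, y ≠ 0 → ∀ z : F, I (z ≠ 0) * RR y 0 z =
      I (z ≠ 0) * ((q F - 1) ^ 3 * (1 - I (y + z = 0))) := by
    intro y hy z
    by_cases hz : z = 0
    · simp [I, hz]
    · by_cases h : y + z = 0 <;> simp [RR, rho, I, hz, hy, h]
      ring
  have hxy0 : ∀ y : F, y ≠ 0 → ∀ z : F, z ≠ 0 → RR y z 0 =
      (q F - 1) ^ 3 * (1 - I (y + z = 0)) := by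
    intro y hy z hz
    by_cases h : y + z = 0 <;> simp [RR, rho, I, hz, hy, h]
    ring
  have hxyz : ∀ x : F, x ≠ 0 → ∀ y : F, y ≠ 0 → ∑ z : F, I (z ≠ 0) * RR x y z =
      (q F - 1 + I (y = -x)) * ((q F - 1) ^ 3 + 2 * (q F - 1) + I (y = x)) := by
    intro x hx y hy
    have : ∀ z : F, I (z ≠ 0) * RR x y z = (q F - 1 + I (y = -x)) *
        ((q F - 1) ^ 2 * I (z ≠ 0) + (q F - 1) * I (z = -x) + (q F - 1) * I (z = -y) +
          I (z = -x) * I (y = x)) := by
      intro z
      have e1 : x + y = 0 ↔ y = -x := by constructor <;> intro h <;> linear_combination h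
      have e2 : x + z = 0 ↔ z = -x := by constructor <;> intro h <;> linear_combination h
      have e3 : y + z = 0 ↔ z = -y := by constructor <;> intro h <;> linear_combination h
      by_cases hz : z = 0
      · subst hz
        rw [I_neg (show ¬ (0 : F) ≠ 0 by simp), I_neg (show ¬ (0 : F) = -x by simpa using hx),
          I_neg (show ¬ (0 : F) = -y by simpa using hy)]
        ring
      · simp only [RR, rho, I_neg hx, I_neg hy, I_neg hz, I_pos hz, I_congr e1, I_congr e2,
          I_congr e3]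
        have e4 : I (z = -x) * I (y = x) = I (z = -x) * I (z = -y) := by
          by_cases h : z = -x
          · rw [I_congr (show y = x ↔ z = -y by
              rw [h]; constructor <;> intro h <;> linear_combination h)]
          · rw [I_neg h]; ring
        rw [e4]; ring
    simp only [this, ← mul_sum, sum_add_distrib, ← sum_mul, sum_I_ne, sum_I_eq]
    ring
  have A0 : ∑ y : F, ∑ z : F, RR 0 y z = q F ^ 3 * (q F - 1) ^ 3 + (q F - 1) ^ 4 * (q F - 2) := by
    rw [split0, split0 (fun z => RR 0 0 z), h000]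
    simp only [h00z, sum_const_zero, add_zero]
    have : ∀ y : F, I (y ≠ 0) * ∑ z, RR 0 y z = I (y ≠ 0) * ((q F - 1) ^ 3 * (q F - 2)) := by
      intro y
      by_cases hy : y = 0
      · simp [I, hy]
      · rw [split0, h0y0 y hy]
        simp only [h0yz y hy, sum_nz_lin hy, zero_add]
    simp only [this, ← sum_mul, sum_I_ne]
    ring
  have A1 : ∀ x : F, I (x ≠ 0) * ∑ y : F, ∑ z : F, RR x y z =
      I (x ≠ 0) * (2 * (q F - 1) ^ 3 * (q F - 2) + ((q F - 1) ^ 2 * ((q F - 1) ^ 3 + 2 * (q F - 1))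
        + (q F - 1) + ((q F - 1) ^ 3 + 2 * (q F - 1)))) + I (x ≠ 0) * I (x + x = 0) := by
    intro x
    by_cases hx : x = 0
    · simp [I, hx]
    rw [split0, split0 (fun z => RR x 0 z), hx00 x hx]
    simp only [hx0z x hx, sum_nz_lin hx, zero_add]
    have : ∀ y : F, I (y ≠ 0) * ∑ z, RR x y z = I (y ≠ 0) * ((q F - 1) ^ 3 * (1 - I (x + y = 0)))
        + ((q F - 1) * ((q F - 1) ^ 3 + 2 * (q F - 1)) * I (y ≠ 0) + (q F - 1) * I (y = x) +
          ((q F - 1) ^ 3 + 2 * (q F - 1)) * I (y = -x) + I (y = x) * I (x + x = 0)) := by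
      intro y
      by_cases hy : y = 0
      · subst hy
        rw [I_neg (show ¬ (0 : F) ≠ 0 by simp), I_neg (show ¬ (0 : F) = -x by simpa using hx),
          I_neg (show ¬ (0 : F) = x from fun h => hx h.symm)]
        ring
      · rw [split0, hxy0 x hx y hy, hxyz x hx y hy, I_pos hy]
        have e4 : I (y = x) * I (x + x = 0) = I (y = x) * I (y = -x) := by
          by_cases h : y = x
          · rw [I_congr (show x + x = 0 ↔ y = -x by
              rw [h]; constructor <;> intro h <;> linear_combination h)]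
          · rw [I_neg h]; ring
        rw [e4]; ring
    simp only [this, sum_add_distrib, sum_nz_lin hx, ← mul_sum, ← sum_mul, sum_I_ne, sum_I_eq]
    ring
  rw [split0, A0]
  simp only [A1, sum_add_distrib, ← sum_mul, sum_I_ne, tau]
  ring

end Pool.Agent.H.MP_6fdec2_co
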